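import Pool.Agent.Y272.TY.Stm2

/-!
# Means of Bloch functions over arcs
-/

set_option autoImplicit false

open Complex Filter Topology Metric Set MeasureTheory

namespace Pool.Agent.Y287.TY.Arc

open Pool.Agent.W677.Mar Pool.Agent.Y272.TY

/-- a function on the left half plane with the Bloch condition -/
structure HB (f : ℂ → ℂ) (f' : ℂ → ℂ) : Prop where
  der : ∀ z : ℂ, z.re < 0 → HasDerivAt f (f' z) z
  bd : ∀ z : ℂ, z.re < 0 → ‖f' z‖ * (-z.re) ≤ 6

variable {f f' : ℂ → ℂ}

theorem vert (h : HB f f') {v : ℝ} (hv : 0 < v) (s t : ℝ) :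
    ‖f (((-v : ℝ) : ℂ) + t * I) - f (((-v : ℝ) : ℂ) + s * I)‖ ≤ 6 / v * |t - s| := by
  have hre : ∀ x : ℝ, (((-v : ℝ) : ℂ) + x * I).re = -v := by
    intro x
    simp
  have hd : ∀ x : ℝ, HasDerivAt (fun y : ℝ => f (((-v : ℝ) : ℂ) + y * I))
      (f' (((-v : ℝ) : ℂ) + x * I) * I) x := by
    intro x
    have h1 : HasDerivAt (fun y : ℝ => (((-v : ℝ) : ℂ) + y * I)) I x := by
      have h2 : HasDerivAt (fun y : ℝ => (y : ℂ)) 1 x := Complex.ofRealCLM.hasDerivAt
      simpa using (h2.mul_const I).const_add (((-v : ℝ) : ℂ))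
    exact (h.der _ (by rw [hre]; linarith)).comp x h1
  have := Convex.norm_image_sub_le_of_norm_hasDerivWithin_le (f := fun y : ℝ =>
    f (((-v : ℝ) : ℂ) + y * I)) (f' := fun x : ℝ => f' (((-v : ℝ) : ℂ) + x * I) * I)
    (s := Set.univ) (C := 6 / v) (x := s) (y := t) (fun x _ => (hd x).hasDerivWithinAt)
    (fun x _ => by
      have h1 := h.bd (((-v : ℝ) : ℂ) + x * I) (by rw [hre]; linarith)
      rw [hre, neg_neg] at h1
      rw [norm_mul, norm_I, mul_one, le_div_iff₀ hv]
      exact h1) convex_univ (mem_univ _) (mem_univ _)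
  rw [Real.norm_eq_abs] at this
  exact this

theorem horiz (h : HB f f') {v v0 : ℝ} (hv : 0 < v) (hv0 : v ≤ v0) (t : ℝ) :
    ‖f (((-v : ℝ) : ℂ) + t * I) - f (((-v0 : ℝ) : ℂ) + t * I)‖ ≤ 6 * Real.log (v0 / v) := by
  have hv0' : 0 < v0 := by linarith
  set q : ℝ → ℂ := fun s => (((-(v0 * Real.exp (-s)) : ℝ)) : ℂ) + t * I with hq
  have hre : ∀ x : ℝ, (q x).re = -(v0 * Real.exp (-x)) := by
    intro x
    simp only [hq, add_re, ofReal_re, mul_re, I_re, mul_zero, ofReal_im, I_im, mul_one, sub_self,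
      add_zero]
  have hneg : ∀ x : ℝ, (q x).re < 0 := by
    intro x
    rw [hre]
    have := mul_pos hv0' (Real.exp_pos (-x))
    linarith
  have hd : ∀ x : ℝ, HasDerivAt (fun y : ℝ => f (q y))
      (f' (q x) * ((v0 * Real.exp (-x) : ℝ) : ℂ)) x := by
    intro x
    have h1 : HasDerivAt (fun y : ℝ => -(v0 * Real.exp (-y))) (v0 * Real.exp (-x)) x := by
      have h2 := ((Real.hasDerivAt_exp (-x)).comp x (hasDerivAt_neg x)).const_mul v0
      have h3 := h2.neg
      refine h3.congr_deriv ?_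
      ring
    have h2 : HasDerivAt q ((v0 * Real.exp (-x) : ℝ) : ℂ) x := by
      have := h1.ofReal_comp.add_const (t * I : ℂ)
      exact this
    exact (h.der _ (hneg x)).comp x h2
  have hL : 0 ≤ Real.log (v0 / v) := Real.log_nonneg (by rw [le_div_iff₀ hv]; linarith)
  have := Convex.norm_image_sub_le_of_norm_hasDerivWithin_le (f := fun y : ℝ =>
    f (q y)) (f' := fun x : ℝ => f' (q x) * ((v0 * Real.exp (-x) : ℝ) : ℂ))
    (s := Set.univ) (C := 6) (x := 0) (y := Real.log (v0 / v))
    (fun x _ => (hd x).hasDerivWithinAt)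
    (fun x _ => by
      have h1 := h.bd (q x) (hneg x)
      rw [hre, neg_neg] at h1
      rw [norm_mul, Complex.norm_real, Real.norm_eq_abs,
        abs_of_nonneg (mul_pos hv0' (Real.exp_pos (-x))).le]
      exact h1) convex_univ (mem_univ _) (mem_univ _)
  rw [Real.norm_eq_abs, sub_zero, abs_of_nonneg hL] at this
  have e0 : q 0 = ((-v0 : ℝ) : ℂ) + t * I := by
    simp [hq]
  have e1 : q (Real.log (v0 / v)) = ((-v : ℝ) : ℂ) + t * I := by
    have : v0 * Real.exp (-Real.log (v0 / v)) = v := by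
      rw [Real.exp_neg, Real.exp_log (div_pos hv0' hv)]
      field_simp
    simp only [hq]
    rw [this]
  simp only [e0, e1] at this
  exact this

theorem core (h : HB f f') {v v0 l a θ : ℝ} (hv : 0 < v) (hv0 : v ≤ v0) (hl : 0 < l)
    (h1 : l ≤ 32 * v0) (h2 : v0 ≤ 2 * l) (hθ : θ ∈ Set.Icc a (a + l)) :
    ‖(l : ℂ)⁻¹ * (∫ t in a..(a + l), f (((-v : ℝ) : ℂ) + t * I)) -
      f (((-v0 : ℝ) : ℂ) + θ * I)‖ ≤ 600 := by
  have hv0' : 0 < v0 := by linarith
  have hlc : (l : ℂ) ≠ 0 := by exact_mod_cast hl.ne'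
  -- continuity
  have hcont : ∀ s : ℝ, 0 < s → Continuous (fun t : ℝ => f (((-s : ℝ) : ℂ) + t * I)) := by
    intro s hs
    refine continuous_iff_continuousAt.2 fun t => ?_
    have h3 : ContinuousAt f (((-s : ℝ) : ℂ) + t * I) := (h.der _ (by simp; linarith)).continuousAt
    exact ContinuousAt.comp (f := fun t : ℝ => (((-s : ℝ) : ℂ) + t * I)) h3
      (by fun_prop)
  have hvert : ∀ s t : ℝ, s ∈ Set.Icc a (a + l) → t ∈ Set.Icc a (a + l) →
      ‖f (((-v0 : ℝ) : ℂ) + t * I) - f (((-v0 : ℝ) : ℂ) + s * I)‖ ≤ 192 := by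
    intro s t hs ht
    refine le_trans (vert h hv0' s t) ?_
    have h3 : |t - s| ≤ 32 * v0 := by
      rw [abs_le]
      constructor <;> linarith [hs.1, hs.2, ht.1, ht.2]
    calc 6 / v0 * |t - s| ≤ 6 / v0 * (32 * v0) :=
          mul_le_mul_of_nonneg_left h3 (by positivity)
      _ = 192 := by field_simp; norm_num
  -- the rectangle
  have hrect := Complex.integral_boundary_rect_eq_zero_of_differentiableOn f
    (((-v0 : ℝ) : ℂ) + a * I) (((-v : ℝ) : ℂ) + ((a + l : ℝ) : ℂ) * I) (by
      intro z hz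
      have hz1 : z.re < 0 := by
        have h3 := hz.1
        simp only [mem_preimage, add_re, ofReal_re, mul_re, I_re, mul_zero, ofReal_im, I_im,
          mul_one, sub_self, add_zero] at h3
        rw [uIcc_of_le (by linarith)] at h3
        linarith [h3.2]
      exact (h.der z hz1).differentiableAt.differentiableWithinAt)
  simp only [add_re, ofReal_re, mul_re, I_re, mul_zero, ofReal_im, I_im, mul_one, sub_self,
    add_zero, add_im, mul_im, zero_add] at hrect
  set Φ : ℝ → ℂ := fun s => ∫ t in a..(a + l), f (((-s : ℝ) : ℂ) + t * I) with hΦ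
  have hi : ∀ b : ℝ, IntervalIntegrable (fun x : ℝ => f ((x : ℂ) + b * I)) volume (-v0) (-v) := by
    intro b
    refine ContinuousOn.intervalIntegrable ?_
    intro x hx
    rw [uIcc_of_le (by linarith)] at hx
    have h3 : ContinuousAt f ((x : ℂ) + b * I) :=
      (h.der _ (by simp; linarith [hx.2])).continuousAt
    exact (ContinuousAt.comp (f := fun x : ℝ => ((x : ℂ) + b * I)) h3
      (by fun_prop)).continuousWithinAt
  have hdiff : I * (Φ v - Φ v0) =
      ∫ x in (-v0)..(-v), (f ((x : ℂ) + ((a + l : ℝ) : ℂ) * I) - f ((x : ℂ) + a * I)) := by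
    rw [intervalIntegral.integral_sub (hi _) (hi _)]
    simp only [smul_eq_mul] at hrect
    simp only [hΦ]
    linear_combination hrect
  have hbd : ‖Φ v - Φ v0‖ ≤ 204 * v0 := by
    have e1 : ‖Φ v - Φ v0‖ = ‖I * (Φ v - Φ v0)‖ := by rw [norm_mul, norm_I, one_mul]
    rw [e1, hdiff]
    have hint : IntervalIntegrable (fun x : ℝ => 12 * (Real.log v0 - Real.log (-x)) + 192)
        volume (-v0) (-v) := by
      refine ContinuousOn.intervalIntegrable ?_
      intro x hx
      rw [uIcc_of_le (by linarith)] at hx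
      have hx0 : -x ≠ 0 := by linarith [hx.2]
      have h3 : ContinuousAt (fun x : ℝ => Real.log (-x)) x :=
        (continuous_neg.continuousAt).log hx0
      exact (((continuousAt_const.sub h3).const_mul 12).add continuousAt_const).continuousWithinAt
    refine le_trans (intervalIntegral.norm_integral_le_of_norm_le (by linarith)
      (Filter.Eventually.of_forall fun x hx => ?_) hint) ?_
    · have hx0 : 0 < -x := by
        have := hx.2
        linarith
      have hx1 : -x ≤ v0 := by linarith [hx.1]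
      have e2 : ((x : ℝ) : ℂ) = ((-(-x) : ℝ) : ℂ) := by rw [neg_neg]
      have hA := horiz h hx0 hx1 (a + l)
      have hB := horiz h hx0 hx1 a
      have hC := hvert a (a + l) ⟨le_rfl, by linarith⟩ ⟨by linarith, le_rfl⟩
      rw [neg_neg] at hA hB
      rw [Real.log_div hv0'.ne' hx0.ne'] at hA hB
      have e3 : f ((x : ℂ) + ((a + l : ℝ) : ℂ) * I) - f ((x : ℂ) + a * I) =
          (f ((x : ℂ) + ((a + l : ℝ) : ℂ) * I) - f (((-v0 : ℝ) : ℂ) + ((a + l : ℝ) : ℂ) * I)) +
          (f (((-v0 : ℝ) : ℂ) + ((a + l : ℝ) : ℂ) * I) - f (((-v0 : ℝ) : ℂ) + a * I)) -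
          (f ((x : ℂ) + a * I) - f (((-v0 : ℝ) : ℂ) + a * I)) := by ring
      rw [e3]
      refine le_trans (norm_sub_le _ _) ?_
      refine le_trans (add_le_add (norm_add_le _ _) le_rfl) ?_
      linarith
    · have e4 : (∫ x in (-v0)..(-v), (12 * (Real.log v0 - Real.log (-x)) + 192)) =
          ∫ x in v..v0, (12 * (Real.log v0 - Real.log x) + 192) := by
        rw [intervalIntegral.integral_comp_neg (fun x : ℝ => 12 * (Real.log v0 - Real.log x) + 192)]
        simp
      rw [e4, intervalIntegral.integral_add, intervalIntegral.integral_const_mul,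
        intervalIntegral.integral_sub, integral_log, intervalIntegral.integral_const,
        intervalIntegral.integral_const]
      · simp only [smul_eq_mul]
        have h5 : Real.log v ≤ Real.log v0 := Real.log_le_log hv hv0
        have h6 : 0 ≤ v * (Real.log v0 - Real.log v) := mul_nonneg hv.le (by linarith)
        nlinarith
      · exact intervalIntegrable_const
      · exact intervalIntegral.intervalIntegrable_log'
      · exact (intervalIntegrable_const.sub
          intervalIntegral.intervalIntegrable_log').const_mul 12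
      · exact intervalIntegrable_const
  -- the mean on the inner line
  have hmean : ‖Φ v0 - l * f (((-v0 : ℝ) : ℂ) + θ * I)‖ ≤ 192 * l := by
    have e5 : Φ v0 - l * f (((-v0 : ℝ) : ℂ) + θ * I) =
        ∫ t in a..(a + l), (f (((-v0 : ℝ) : ℂ) + t * I) - f (((-v0 : ℝ) : ℂ) + θ * I)) := by
      rw [intervalIntegral.integral_sub ((hcont v0 hv0').intervalIntegrable _ _)
        intervalIntegrable_const, intervalIntegral.integral_const, add_sub_cancel_left, real_smul]
    rw [e5]
    have := intervalIntegral.norm_integral_le_of_norm_le_const (a := a) (b := a + l) (C := 192)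
      (f := fun t : ℝ => f (((-v0 : ℝ) : ℂ) + t * I) - f (((-v0 : ℝ) : ℂ) + θ * I))
      (fun t ht => by
        rw [uIoc_of_le (by linarith)] at ht
        exact hvert θ t hθ ⟨ht.1.le, ht.2⟩)
    rw [add_sub_cancel_left, abs_of_pos hl] at this
    exact this
  have e6 : (l : ℂ)⁻¹ * Φ v - f (((-v0 : ℝ) : ℂ) + θ * I) =
      (l : ℂ)⁻¹ * ((Φ v - Φ v0) + (Φ v0 - l * f (((-v0 : ℝ) : ℂ) + θ * I))) := by
    field_simp
    ring
  rw [e6, norm_mul, norm_inv, Complex.norm_real, Real.norm_eq_abs, abs_of_pos hl,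
    inv_mul_le_iff₀ hl]
  refine le_trans (norm_add_le _ _) ?_
  linarith

theorem ofH {H : ℂ → ℂ} (hH : DifferentiableOn ℂ H (ball 0 1))
    (hb : ∀ w ∈ ball (0 : ℂ) 1, ‖deriv H w‖ * (1 - ‖w‖) ≤ 6) :
    HB (fun z => H (exp z)) (fun z => deriv H (exp z) * exp z) := by
  have hmem : ∀ z : ℂ, z.re < 0 → exp z ∈ ball (0 : ℂ) 1 := by
    intro z hz
    rw [mem_ball_zero_iff, Complex.norm_exp]
    exact Real.exp_lt_one_iff.2 hz
  refine ⟨fun z hz => ?_, fun z hz => ?_⟩
  · have h1 : HasDerivAt H (deriv H (exp z)) (exp z) :=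
      (hH.differentiableAt (isOpen_ball.mem_nhds (hmem z hz))).hasDerivAt
    exact h1.comp z (Complex.hasDerivAt_exp z)
  · have h1 := hb _ (hmem z hz)
    rw [norm_mul, Complex.norm_exp] at *
    have h2 : Real.exp z.re * (-z.re) ≤ 1 - Real.exp z.re := by
      have h3 := Real.add_one_le_exp (-z.re)
      have h4 : Real.exp z.re * Real.exp (-z.re) = 1 := by
        rw [← Real.exp_add, add_neg_cancel, Real.exp_zero]
      nlinarith [Real.exp_pos z.re]
    calc ‖deriv H (exp z)‖ * Real.exp z.re * (-z.re)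
        = ‖deriv H (exp z)‖ * (Real.exp z.re * (-z.re)) := by ring
      _ ≤ ‖deriv H (exp z)‖ * (1 - Real.exp z.re) := mul_le_mul_of_nonneg_left h2 (norm_nonneg _)
      _ ≤ 6 := h1

theorem pt_exp {R : ℝ} (hR : 0 < R) (t : ℝ) :
    pt R t = exp (((-(-Real.log R) : ℝ) : ℂ) + t * I) := by
  rw [neg_neg, Complex.exp_add, Complex.ofReal_log hR.le, Complex.exp_log (by exact_mod_cast hR.ne'),
    pt, circleMap, zero_add]

/-- the inner disc -/
theorem inner {H : ℂ → ℂ} (hH : DifferentiableOn ℂ H (ball 0 1))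
    (hb : ∀ w ∈ ball (0 : ℂ) 1, ‖deriv H w‖ * (1 - ‖w‖) ≤ 6) {x y : ℂ} (hx : ‖x‖ ≤ 1 / 2)
    (hy : ‖y‖ ≤ 1 / 2) : ‖H y - H x‖ ≤ 12 := by
  have h1 : ∀ z ∈ closedBall (0 : ℂ) (1 / 2), z ∈ ball (0 : ℂ) 1 := by
    intro z hz
    rw [mem_closedBall_zero_iff] at hz
    rw [mem_ball_zero_iff]
    linarith
  have := Convex.norm_image_sub_le_of_norm_hasDerivWithin_le (f := H) (f' := deriv H)
    (s := closedBall (0 : ℂ) (1 / 2)) (C := 12) (x := x) (y := y)
    (fun z hz => (hH.differentiableAt (isOpen_ball.mem_nhds (h1 z hz))).hasDerivAt.hasDerivWithinAt)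
    (fun z hz => by
      have h2 := hb z (h1 z hz)
      rw [mem_closedBall_zero_iff] at hz
      nlinarith [norm_nonneg (deriv H z)]) (convex_closedBall _ _)
    (by rw [mem_closedBall_zero_iff]; exact hx) (by rw [mem_closedBall_zero_iff]; exact hy)
  refine le_trans this ?_
  have h3 : ‖y - x‖ ≤ 1 := by
    refine le_trans (norm_sub_le _ _) ?_
    linarith
  linarith

theorem t : St_Arc := by
  refine ⟨612, by norm_num, ?_⟩
  intro H hH hb r R a h θ hr hrR hR h1 h2 hθ
  have hB := ofH hH hb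
  -- the main estimate with an inner radius at least 1/2
  have main : ∀ r' : ℝ, 1 / 2 ≤ r' → r' ≤ R → 0 < h → h ≤ 32 * (1 - r') → 1 - r' ≤ h →
      ‖(h : ℂ)⁻¹ * (∫ t in a..(a + h), H (pt R t)) - H (pt r' θ)‖ ≤ 600 := by
    intro r' hr' hrR' hh hh1 hh2
    have hR0 : 0 < R := by linarith
    have hr0 : 0 < r' := by linarith
    have hlog1 : 1 - r' ≤ -Real.log r' := by
      have := Real.log_le_sub_one_of_pos hr0
      linarith
    have hlog2 : -Real.log r' ≤ 2 * (1 - r') := by
      have h3 := Real.one_sub_inv_le_log_of_pos hr0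
      have h4 : r'⁻¹ - 1 ≤ 2 * (1 - r') := by
        have h5 : r'⁻¹ - 1 = (1 - r') * r'⁻¹ := by field_simp
        rw [h5]
        have h6 : r'⁻¹ ≤ 2 := by
          rw [inv_le_comm₀ hr0 (by norm_num)]
          linarith
        nlinarith
      linarith
    have hvpos : 0 < -Real.log R := by
      have := Real.log_neg hR0 hR
      linarith
    have hvle : -Real.log R ≤ -Real.log r' := by
      have := Real.log_le_log hr0 hrR'
      linarith
    have hc := core (θ := θ) (a := a) hB hvpos hvle hh (by linarith) (by linarith) hθ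
    simp only [← pt_exp hR0, ← pt_exp hr0] at hc
    exact hc
  have hh0 : 0 < h := by linarith
  by_cases hr1 : 1 / 2 ≤ r
  · exact le_trans (main r hr1 hrR hh0 (by linarith) h1) (by norm_num)
  · rw [not_le] at hr1
    by_cases hR1 : R ≤ 1 / 2
    · have hcR : Continuous (fun t : ℝ => H (pt R t)) := by
        refine continuous_iff_continuousAt.2 fun t => ?_
        have h3 : ContinuousAt H (pt R t) := (hH.differentiableAt (isOpen_ball.mem_nhds (by
          rw [mem_ball_zero_iff, norm_pt R t (by linarith)]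
          linarith))).continuousAt
        exact ContinuousAt.comp (f := fun t : ℝ => pt R t) h3 (continuous_pt R).continuousAt
      have e5 : (h : ℂ)⁻¹ * (∫ t in a..(a + h), H (pt R t)) - H (pt r θ) =
          (h : ℂ)⁻¹ * ∫ t in a..(a + h), (H (pt R t) - H (pt r θ)) := by
        rw [intervalIntegral.integral_sub (hcR.intervalIntegrable _ _)
          intervalIntegrable_const, intervalIntegral.integral_const]
        have hhc : (h : ℂ) ≠ 0 := by exact_mod_cast hh0.ne'
        simp only [add_sub_cancel_left, real_smul]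
        field_simp
      have := intervalIntegral.norm_integral_le_of_norm_le_const (a := a) (b := a + h) (C := 12)
        (f := fun t : ℝ => H (pt R t) - H (pt r θ))
        (fun t _ => inner hH hb (by rw [norm_pt r θ hr]; linarith)
          (by rw [norm_pt R t (by linarith)]; linarith))
      rw [add_sub_cancel_left, abs_of_pos hh0] at this
      rw [e5, norm_mul, norm_inv, Complex.norm_real, Real.norm_eq_abs, abs_of_pos hh0,
        inv_mul_le_iff₀ hh0]
      linarith
    · rw [not_le] at hR1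
      have h3 := main (1 / 2) le_rfl hR1.le hh0 (by linarith) (by linarith)
      have h4 := inner hH hb (x := pt r θ) (y := pt (1 / 2) θ)
        (by rw [norm_pt r θ hr]; linarith) (by rw [norm_pt (1 / 2) θ (by norm_num)])
      have e7 : (h : ℂ)⁻¹ * (∫ t in a..(a + h), H (pt R t)) - H (pt r θ) =
          ((h : ℂ)⁻¹ * (∫ t in a..(a + h), H (pt R t)) - H (pt (1 / 2) θ)) +
          (H (pt (1 / 2) θ) - H (pt r θ)) := by ring
      rw [e7]
      refine le_trans (norm_add_le _ _) ?_
      linarith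

end Pool.Agent.Y287.TY.Arc
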